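import Pool.Agent.Lib.MP_fb02f1_lc.H30.Hard

/-!
# Recognizing the graphs with a 1-bend SHOPED is NP-hard
-/

namespace Pool.Agent.Results.MP_fb02f1_lc.NPHard

open Pool.Agent.Shoped30

/-- The decision problem that asks whether a given graph `G` of maximum degree at most `4` admits a
1-bend SHOPED is NP-hard under polynomial-time many-one reductions. Moreover the reductions only
produce graphs of maximum degree at most `4`, and in the negative case these graphs do not even
have a drawing in the weaker sense of `IsWeakShoped`. The last statement says that the word of a
graph determines the graph. -/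
theorem result :
    Pool.Agent.Shoped30.NPHard ShopedLang ∧
    (∀ L : Set (List Bool), InNP L → ∃ f : List Bool → List Bool,
      PolyTime (id : List Bool → List Bool) (id : List Bool → List Bool) f ∧
      ∀ w, ∃ (n : ℕ) (G : SimpleGraph (Fin n)), f w = graphWord G ∧
        (∀ v, (G.neighborSet v).ncard ≤ 4) ∧
        (w ∈ L → HasShoped G) ∧ (w ∉ L → ¬ HasWeakShoped G)) ∧
    Function.Injective (fun p : (n : ℕ) × SimpleGraph (Fin n) => graphWord p.2) :=
  ⟨shoped_nphard, fun _ hL => shoped_hard hL, graphWord_injective⟩

end Pool.Agent.Results.MP_fb02f1_lc.NPHard
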